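import Pool.Agent.H36.ForestCount

/-!
# MP_83c1a8_pr : a 2-forest marginal exceeding the spanning tree marginal
-/

open SimpleGraph

namespace Pool.Agent.Results.MP_83c1a8_pr.TwoForestMarginal

open Pool.Agent.H36.ForestCount

/-- There is a connected graph `G` with seven vertices and ten edges (so `|E| ≥ |V| + 2`) and an
edge `e` with `P_UST[ω(e)=1] = 6/17` and `P_2UF[ω(e)=1] = 5/14 > 6/17`. -/
theorem result : ∃ G : SimpleGraph (Fin 7), G.Connected ∧ G.edgeSet.ncard = 10 ∧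
    ∃ e ∈ G.edgeSet, UF G 1 e = 6 / 17 ∧ UF G 2 e = 5 / 14 ∧ ¬ (UF G 2 e ≤ UF G 1 e) := by
  refine ⟨G0, G0_connected, G0_ncard, _, G0_mem, UF_one, UF_two, ?_⟩
  rw [UF_one, UF_two]
  norm_num

end Pool.Agent.Results.MP_83c1a8_pr.TwoForestMarginal
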